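import Pool.Agent.Helper15.T4.Stmts

set_option autoImplicit false

/-!
MP_e0a484_co: module GIR1, a pairing whose graph is cubic of girth at least `g` has no short cycles.
-/

open Finset

namespace Pool.Agent.Helper60.T4

open Pool.Agent.Helper15.T4

theorem pm_iff {H : Type} [Fintype H] (s : Finset H) (M : Finset (Sym2 H)) : M ∈ PM s ↔ IsPM s M := by
  classical
  unfold PM
  simp

theorem partner_unique {n : ℕ} {M : Finset (Sym2 (HE n))} (hM : IsPM (univ : Finset (HE n)) M)
    {h x y : HE n} (hx : s(h, x) ∈ M) (hy : s(h, y) ∈ M) : x = y := by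
  obtain ⟨e, _, he⟩ := hM.2.2 h (Finset.mem_univ _)
  have h1 := he _ ⟨hx, Sym2.mem_mk_left _ _⟩
  have h2 := he _ ⟨hy, Sym2.mem_mk_left _ _⟩
  have h3 : s(h, x) = s(h, y) := h1.trans h2.symm
  exact Sym2.congr_right.mp h3

theorem cubic_surj {n : ℕ} {M : Finset (Sym2 (HE n))} (hM : IsPM (univ : Finset (HE n)) M)
    (v : Fin n) (hv : Set.ncard {w | (Gr M).Adj v w} = 3) :
    ∃ φ : Fin n → Fin 3, ∀ a : Fin 3, ∃ w : Fin n, v ≠ w ∧ (∃ b, s((v, a), (w, b)) ∈ M) ∧ φ w = a := by
  classical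
  have h0 : ∀ w : Fin n, ∃ a : Fin 3, (Gr M).Adj v w → ∃ b, s((v, a), (w, b)) ∈ M := by
    intro w
    by_cases h : (Gr M).Adj v w
    · obtain ⟨a, b, hab⟩ := h.2
      exact ⟨a, fun _ => ⟨b, hab⟩⟩
    · exact ⟨0, fun h' => absurd h' h⟩
  choose φ hφ using h0
  refine ⟨φ, ?_⟩
  let S : Finset (Fin n) := univ.filter (fun w => (Gr M).Adj v w)
  have hS : S.card = 3 := by
    rw [← hv, ← Set.ncard_coe_finset]
    congr 1
    ext w
    simp [S]
  have hinj : Set.InjOn φ (S : Set (Fin n)) := by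
    intro w hw w' hw' h
    have h1 : (Gr M).Adj v w := by simpa [S] using hw
    have h2 : (Gr M).Adj v w' := by simpa [S] using hw'
    obtain ⟨b, hb⟩ := hφ w h1
    obtain ⟨b', hb'⟩ := hφ w' h2
    rw [h] at hb
    have := partner_unique hM hb hb'
    exact congrArg Prod.fst this
  have himg : S.image φ = univ := by
    apply Finset.eq_univ_of_card
    rw [Finset.card_image_of_injOn hinj, hS]
    rfl
  intro a
  have ha : a ∈ S.image φ := by rw [himg]; exact Finset.mem_univ _
  obtain ⟨w, hw, hwa⟩ := Finset.mem_image.mp ha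
  have h1 : (Gr M).Adj v w := by simpa [S] using hw
  refine ⟨w, h1.1, ?_, hwa⟩
  have := hφ w h1
  rwa [hwa] at this

theorem no_loop {n : ℕ} {M : Finset (Sym2 (HE n))} (hM : IsPM (univ : Finset (HE n)) M)
    (v : Fin n) (hv : Set.ncard {w | (Gr M).Adj v w} = 3) (a b : Fin 3) :
    s((v, a), (v, b)) ∉ M := by
  intro h
  obtain ⟨φ, hφ⟩ := cubic_surj hM v hv
  obtain ⟨w, hw, ⟨b', hb'⟩, _⟩ := hφ a
  have := partner_unique hM h hb'
  exact hw (congrArg Prod.fst this)

theorem no_double {n : ℕ} {M : Finset (Sym2 (HE n))} (hM : IsPM (univ : Finset (HE n)) M)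
    (v w : Fin n) (hv : Set.ncard {w | (Gr M).Adj v w} = 3) (a a' b b' : Fin 3)
    (h : s((v, a), (w, b)) ∈ M) (h' : s((v, a'), (w, b')) ∈ M) : a = a' := by
  obtain ⟨φ, hφ⟩ := cubic_surj hM v hv
  obtain ⟨w1, _, ⟨b1, hb1⟩, h1⟩ := hφ a
  obtain ⟨w2, _, ⟨b2, hb2⟩, h2⟩ := hφ a'
  have e1 : w = w1 := congrArg Prod.fst (partner_unique hM h hb1)
  have e2 : w = w2 := congrArg Prod.fst (partner_unique hM h' hb2)
  rw [← h1, ← h2, ← e1, ← e2]

theorem GIR1 : ST_GIR1 := by
  classical
  intro n g M hM hC k hk c hc hE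
  rw [pm_iff] at hM
  have hmem : ∀ i, s(((c i).1, (c i).2.2), ((c (i + 1)).1, (c (i + 1)).2.1)) ∈ M := by
    intro i
    apply hE
    unfold E
    exact Finset.mem_image.mpr ⟨i, Finset.mem_univ _, rfl⟩
  match k, hk, c, hc, hE, hmem with
  | 0, _, c, hc, _, hmem =>
    have h := hmem 0
    have h1 : ((0 : Fin 1) + 1) = 0 := rfl
    rw [h1] at h
    exact no_loop hM _ (hC.1 _) _ _ h
  | 1, _, c, hc, _, hmem =>
    have h := hmem 0
    have h' := hmem 1
    have h1 : ((0 : Fin 2) + 1) = 1 := rfl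
    have h2 : ((1 : Fin 2) + 1) = 0 := rfl
    rw [h1] at h
    rw [h2, Sym2.eq_swap] at h'
    exact hc.2 0 (no_double hM _ _ (hC.1 _) _ _ _ _ h' h)
  | k + 2, hk, c, hc, _, hmem =>
    have hadj : ∀ i : Fin (k + 3), (Gr M).Adj (c i).1 (c (i + 1)).1 := by
      intro i
      refine ⟨?_, _, _, hmem i⟩
      intro h
      have h1 := hc.1 h
      have h2 : i + 1 = i + 0 := by rw [← h1, add_zero]
      have h3 := add_left_cancel h2
      exact one_ne_zero h3
    let f : SimpleGraph.cycleGraph (k + 3) →g Gr M :=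
      { toFun := fun i => (c i).1
        map_rel' := by
          intro u v huv
          rw [SimpleGraph.cycleGraph_adj] at huv
          rcases huv with h | h
          · have h1 : u = v + 1 := by rw [← h]; abel
            rw [h1]
            exact (hadj v).symm
          · have h1 : v = u + 1 := by rw [← h]; abel
            rw [h1]
            exact hadj u }
    have hinj : Function.Injective f := hc.1
    have hcyc := (SimpleGraph.Walk.isCycle_map_iff_of_injective hinj).mpr
      (SimpleGraph.cycleGraph.isCycle_cycle (n := k))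
    have hlen := hC.2 _ _ hcyc
    rw [SimpleGraph.Walk.length_map, SimpleGraph.cycleGraph.length_cycle] at hlen
    omega

end Pool.Agent.Helper60.T4
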