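import Pool.Agent.Helper15.T4.Stmts

set_option autoImplicit false

/-!
MP_e0a484_co: module PLC, the cycles of the planted distribution.
-/

open Finset MeasureTheory Filter Topology

namespace Pool.Agent.Helper60.T4

open Pool.Agent.Helper15.T4

/-- The product of the traces. -/
noncomputable def Ph {I : Type} [Fintype I] (κ : I → ℕ) (x : L1 → ℝ) : ℂ :=
  ∏ i, ((m1.R x * m1.AM) ^ (κ i + 1)).trace

theorem R_smul (s : ℝ) (x : L1 → ℝ) : m1.R (s • x) = (s : ℂ) • m1.R x := by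
  ext a b
  simp only [Mdl.R, Mdl.l, Matrix.smul_apply, smul_eq_mul, Pi.smul_apply, Complex.ofReal_mul,
    Finset.mul_sum]
  refine Finset.sum_congr rfl (fun c _ => Finset.sum_congr rfl (fun i _ => ?_))
  ring

theorem R_cont : Continuous (fun x : L1 → ℝ => m1.R x) := by
  refine continuous_matrix (fun a b => ?_)
  simp only [Mdl.R, Mdl.l]
  refine continuous_finsetSum _ (fun c _ => ?_)
  refine continuous_const.mul (continuous_finsetSum _ (fun i _ => ?_))
  exact continuous_const.mul (Complex.continuous_ofReal.comp (continuous_apply i))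

theorem Ph_cont {I : Type} [Fintype I] (κ : I → ℕ) : Continuous (Ph κ) := by
  unfold Ph
  refine continuous_finsetProd _ (fun i _ => ?_)
  exact Continuous.matrix_trace ((R_cont.matrix_mul continuous_const).pow (κ i + 1))

theorem Ph_hom {I : Type} [Fintype I] (κ : I → ℕ) (s : ℝ) (x : L1 → ℝ) :
    Ph κ (s • x) = (s : ℂ) ^ (∑ i, (κ i + 1)) * Ph κ x := by
  unfold Ph
  rw [R_smul]
  simp only [smul_mul_assoc, smul_pow, Matrix.trace_smul, smul_eq_mul]
  rw [Finset.prod_mul_distrib, Finset.prod_pow_eq_pow_sum]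

theorem q1_pos : 0 < q1 := by
  unfold q1
  exact Real.sqrt_pos.mpr (by norm_num)

theorem NF_pos (N : ℕ) : 0 < NF q1 N := by
  unfold NF
  have h2 : 0 < (q1 ^ 2 * Real.exp (-3)) ^ N := by
    have := q1_pos
    positivity
  refine mul_pos ?_ h2
  rcases Nat.eq_zero_or_pos N with h | h
  · subst h
    simp
  · have : (0 : ℝ) < N := by exact_mod_cast h
    positivity

theorem Ph_u1 {I : Type} [Fintype I] (κ : I → ℕ) (hTAU : ST_TAU) (hRU : ST_RU) :
    Ph κ u1 / (q1 : ℂ) ^ (∑ i, (κ i + 1)) = ∏ i, ((tau (κ i) : ℝ) : ℂ) := by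
  have hq : (q1 : ℂ) ≠ 0 := by exact_mod_cast q1_pos.ne'
  unfold Ph
  rw [hRU]
  simp only [smul_pow, Matrix.trace_smul, smul_eq_mul]
  rw [Finset.prod_mul_distrib, Finset.prod_pow_eq_pow_sum, mul_div_assoc, mul_comm, div_mul_cancel₀]
  · exact Finset.prod_congr rfl (fun i _ => hTAU (κ i))
  · exact pow_ne_zero _ hq

theorem mass_eq {n : ℕ} (W : Finset (Sym2 (HE n)) → ℝ) (F : Finset (Sym2 (HE n))) [DecidableEq (Sym2 (HE n))] :
    mass W F = ∑ M ∈ (PM (univ : Finset (HE n))).filter (fun M => F ⊆ M), W M := by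
  unfold mass
  refine Finset.sum_congr ?_ (fun _ _ => rfl)
  ext M
  simp only [Finset.mem_filter]

theorem m1_symm : m1.Symm := by
  intro a b c
  show w1 a b c = w1 b a c ∧ w1 a b c = w1 a c b
  unfold w1
  constructor
  · refine if_congr ?_ rfl rfl
    constructor
    · rintro ⟨h1, h2, h3, h4, h5⟩
      exact ⟨h1.symm, h3, h2, h4.symm, h4.symm.trans h5⟩
    · rintro ⟨h1, h2, h3, h4, h5⟩
      exact ⟨h1.symm, h3, h2, h4.symm, h4.symm.trans h5⟩
  · refine if_congr ?_ rfl rfl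
    constructor
    · rintro ⟨h1, h2, h3, h4, h5⟩
      exact ⟨h2, h1, h3.symm, h5, h4⟩
    · rintro ⟨h1, h2, h3, h4, h5⟩
      exact ⟨h2, h1, h3.symm, h5, h4⟩

theorem PLC (hSUMX : ST_SUMX) (hPSIC : ST_PSIC) (hXC : ST_XC) (hSTRU : ST_STRU) (hASY : ST_ASY)
    (hPK1 : ST_PK1) (hS1A : ST_S1A) (hTAU : ST_TAU) (hRU : ST_RU) : ST_PLC := by
  classical
  intro I _ _ κ
  obtain ⟨c, hc0, hc1, hc2⟩ := hS1A
  set f : ℕ := ∑ i, (κ i + 1) with hf
  let A : ℕ → ℂ := fun N => GI (fun x => m1.P x ^ (2 * N - f) * Ph κ x)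
  let S : ℕ → ℂ := fun N => ∑ M ∈ PM (univ : Finset (HE (2 * N))), (Xc M : ℂ)
  refine ⟨fun N => (A N / S N).re, ?_, ?_⟩
  · have h1 : Tendsto (fun N : ℕ => A N * ((6 * (N : ℝ)) ^ f : ℝ) / ((NF q1 N : ℝ) : ℂ)) atTop
        (𝓝 (c * (Ph κ u1 / (q1 : ℂ) ^ f))) := by
      have := hASY L1 m1.P u1 q1 _ hPK1 f f (Ph κ) (by omega) (Ph_cont κ) (fun s x => by
        rw [Ph_hom]
        have : 3 * f - 2 * f = f := by omega
        rw [this])
      rw [hc2, ← mul_div_assoc]
      exact this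
    have h2 : Tendsto (fun N : ℕ => (A N * ((6 * (N : ℝ)) ^ f : ℝ) / ((NF q1 N : ℝ) : ℂ)) /
        (S N / ((NF q1 N : ℝ) : ℂ))) atTop (𝓝 (c * (Ph κ u1 / (q1 : ℂ) ^ f) / c)) :=
      h1.div hc1 hc0
    rw [Ph_u1 κ hTAU hRU, mul_div_cancel_left₀ _ hc0] at h2
    have h3 : Tendsto (fun N : ℕ => A N / S N * ((2 * (N : ℝ)) ^ f : ℝ)) atTop
        (𝓝 ((∏ i, ((tau (κ i) : ℝ) : ℂ)) / 3 ^ f)) := by
      have h4 := h2.div_const (3 ^ f)
      refine h4.congr (fun N => ?_)
      have hN : ((NF q1 N : ℝ) : ℂ) ≠ 0 := by exact_mod_cast (NF_pos N).ne'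
      have h6 : ((6 * (N : ℝ)) ^ f : ℝ) = 3 ^ f * (2 * (N : ℝ)) ^ f := by
        rw [← mul_pow]
        congr 1
        ring
      rw [h6, div_div_div_cancel_right₀ hN]
      push_cast
      have h3' : (3 : ℂ) ^ f ≠ 0 := pow_ne_zero _ (by norm_num)
      rw [div_div, mul_comm (S N), ← div_div]
      congr 1
      field_simp
    have h5 := (Complex.continuous_re.tendsto _).comp h3
    have h7 : ((∏ i, ((tau (κ i) : ℝ) : ℂ)) / 3 ^ f : ℂ).re = ∏ i, tau (κ i) / 3 ^ (κ i + 1) := by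
      rw [Finset.prod_div_distrib, Finset.prod_pow_eq_pow_sum]
      have : ((∏ i, ((tau (κ i) : ℝ) : ℂ)) / 3 ^ f : ℂ) =
          (((∏ i, tau (κ i)) / 3 ^ f : ℝ) : ℂ) := by push_cast; rfl
      rw [this, Complex.ofReal_re]
    rw [h7] at h5
    refine h5.congr (fun N => ?_)
    simp only [Function.comp_apply]
    rw [Complex.re_mul_ofReal]
  · refine Filter.Eventually.of_forall (fun N cc hcc => ?_)
    obtain ⟨hm, _, _, _, _⟩ := hSTRU (2 * N) I κ cc hcc
    have h1 : ((mass (WX N) (EU cc) : ℝ) : ℂ) = A N / S N := by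
      have h2 : mass (WX N) (EU cc) =
          ∑ M ∈ (PM (univ : Finset (HE (2 * N)))).filter (fun M => EU cc ⊆ M), WX N M := mass_eq _ _
      rw [h2]
      unfold WX
      rw [← Finset.sum_div]
      push_cast
      congr 1
      have h3 := hSUMX L1 L1 m1 (2 * N) (EU cc) hm
      have h4 : GI (m1.Psi (EU cc)) = A N := by
        have h5 : m1.Psi (EU cc) = fun x => m1.P x ^ (2 * N - f) * Ph κ x := by
          funext x
          exact hPSIC L1 L1 m1 m1_symm (2 * N) I κ cc x hcc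
        rw [h5]
      rw [h4] at h3
      rw [← h3]
      refine Finset.sum_congr ?_ (fun M _ => ((hXC (2 * N) M).2.1).symm)
      ext M
      simp only [Finset.mem_filter]
    show mass (WX N) (EU cc) = (A N / S N).re
    rw [← h1, Complex.ofReal_re]

end Pool.Agent.Helper60.T4
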